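import Pool.Agent.Helper15.PF.Main
import Pool.Agent.Helper89.CPB.MainD

/-!
# In characteristic 0 the sign conjecture is equivalent to all the standard conjectures, and it is
enough to know it for one variety over a purely transcendental extension of `ℚ̄` for each variety
over `ℚ̄`
-/

namespace Pool.Agent.Helper24.SC

open Pool.Agent.Helper29.CPB Pool.Agent.Helper15.PF

universe u v

variable {F : Type u} [Field F]

/-- In dimension `0` the conjecture `A(X × X)` is trivial. -/
private theorem conjA_of_dim (X : Variety.{u, v} F) (h0 : X.dim = 0) : X.ConjA := by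
  intro s b hb
  rcases Nat.eq_zero_or_pos s with rfl | hs
  · exact ⟨b, by simpa using hb, rfl⟩
  · have h1 : X.π 0 = 1 := by
      have h2 := X.grading.sum
      rw [h0] at h2
      simpa using h2
    have hb0 : b = 0 := by
      have h3 := X.cycles.deg s b hb 0
      rw [h1, mul_one, X.grading.out (0 + 2 * (s : ℤ)) (Or.inr (by rw [h0]; omega)), zero_mul] at h3
      exact h3
    refine ⟨0, X.cycles.zero _, ?_⟩
    have h4 : ∀ k : ℕ, cupPow X.L k (0 : Module.End F X.H) = 0 := by
      intro k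
      unfold cupPow
      induction k with
      | zero => rfl
      | succ k ih => rw [Function.iterate_succ_apply', ih, mul_zero, zero_mul, add_zero]
    rw [h4, hb0]

theorem result [CharZero F] :
    (∀ (X Z S : Variety.{u, v} F) (μ : X.H → X.H → Z.H), SelfProduct X Z μ → 1 ≤ X.dim →
      GenericSection Z S 1 → X.HodgeType → [S.CPlus, X.ConjA, X.Lefschetz, X.ConjD].TFAE) ∧
    (∀ G : Fields.{u, v} F, (∀ X ∈ G.all, X.HodgeType) →
      [∀ X ∈ G.closed 0, 1 ≤ X.dim → ∃ (Z S : Variety.{u, v} F) (μ : X.H → X.H → Z.H),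
          SelfProduct X Z μ ∧ Nonempty (GenericSection Z S 1) ∧ S.CPlus,
        ∀ X ∈ G.closed 0, X.ConjA, ∀ X ∈ G.closed 0, X.ConjD, ∀ X ∈ G.closed 0, X.Lefschetz,
        ∀ X ∈ G.all, Odd X.dim → X.CPlus, ∀ X ∈ G.all, X.CPlus, ∀ X ∈ G.all, X.Kunneth,
        ∀ X ∈ G.all, X.Lefschetz, ∀ X ∈ G.all, X.ConjA, ∀ X ∈ G.all, X.ConjD].TFAE) := by
  have one : ∀ (X Z S : Variety.{u, v} F) (μ : X.H → X.H → Z.H), SelfProduct X Z μ → 1 ≤ X.dim →
      GenericSection Z S 1 → (X.Lefschetz ↔ S.CPlus) := by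
    intro X Z S μ hsp hX G
    obtain ⟨τ, hsq⟩ := hsp.isSquare
    have h1 := G.dim
    have h2 := hsp.dim
    constructor
    · intro h
      exact cplus_of_lefschetz hsq G ⟨X.dim - 1, by omega⟩ h
    · intro h
      apply lefschetz_of_inverse
      intro c hc hcn
      exact inverses_of_cplus hsq 1 le_rfl hX G h c hc
  have zero : ∀ X : Variety.{u, v} F, X.dim = 0 → X.Lefschetz := by
    intro X h0
    apply lefschetz_of_inverse
    intro c hc hcn
    omega
  refine ⟨?_, ?_⟩
  · intro X Z S μ hsp hX G hH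
    tfae_have 1 → 3 := (one X Z S μ hsp hX G).mpr
    tfae_have 3 → 1 := (one X Z S μ hsp hX G).mp
    tfae_have 3 → 2 := conjA_of_lefschetz hsp hH
    tfae_have 2 → 4 := conjD_of_conjA hH
    tfae_have 4 → 3 := lefschetz_of_conjD
    tfae_finish
  · intro G hH
    have hA : ∀ X ∈ G.all, X.Lefschetz → X.ConjA := by
      intro X hX h
      rcases Nat.eq_zero_or_pos X.dim with h0 | hpos
      · exact conjA_of_dim X h0
      · obtain ⟨Z, μ, hsp, -⟩ := G.sections X hX hpos
        exact conjA_of_lefschetz hsp (hH X hX) h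
    tfae_have 5 → 1 := by
      intro h X hX hpos
      obtain ⟨Z, μ, hsp, S, hS, ⟨T⟩⟩ := G.sections X (G.closed_subset 0 hX) hpos
      have h1 := T.dim
      have h2 := hsp.dim
      exact ⟨Z, S, μ, hsp, ⟨T⟩, h S hS ⟨X.dim - 1, by omega⟩⟩
    tfae_have 1 → 4 := by
      intro h X hX
      rcases Nat.eq_zero_or_pos X.dim with h0 | hpos
      · exact zero X h0
      · obtain ⟨Z, S, μ, hsp, ⟨T⟩, hS⟩ := h X hX hpos
        exact (one X Z S μ hsp hpos T).mpr hS
    tfae_have 4 → 8 := G.lefschetz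
    tfae_have 8 → 7 := fun h X hX => kunneth_of_lefschetz X (h X hX)
    tfae_have 7 → 6 := fun h X hX => cplus_of_kunneth X (h X hX)
    tfae_have 6 → 5 := fun h X hX _ => h X hX
    tfae_have 8 → 9 := fun h X hX => hA X hX (h X hX)
    tfae_have 9 → 10 := fun h X hX => conjD_of_conjA (hH X hX) (h X hX)
    tfae_have 9 → 2 := fun h X hX => h X (G.closed_subset 0 hX)
    tfae_have 2 → 3 := fun h X hX => conjD_of_conjA (hH X (G.closed_subset 0 hX)) (h X hX)
    tfae_have 10 → 3 := fun h X hX => h X (G.closed_subset 0 hX)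
    tfae_have 3 → 4 := fun h X hX => lefschetz_of_conjD (h X hX)
    tfae_finish

end Pool.Agent.Helper24.SC
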